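import Pool.Agent.Helper36.LX.Sheet

/-! Project LX, row PRJ (copy of helper85's row of LG): the metric projection onto the hull of the
terminals. -/

set_option autoImplicit false

open MeasureTheory Metric Set Filter Topology
open scoped ENNReal NNReal

namespace H11ST
namespace LX
open LG

namespace PRJaux

variable {d n : ℕ}

/-- the metric projection onto a closed convex set -/
theorem exists_proj {K : Set (E d)} (hne : K.Nonempty) (hcl : IsClosed K) (hcv : Convex ℝ K) :
    ∃ g : E d → E d, (∀ y, g y ∈ K) ∧ (∀ y ∈ K, g y = y) ∧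
      ∀ a b, dist (g a) (g b) ≤ dist a b := by
  have hex : ∀ y : E d, ∃ v ∈ K, ∀ w ∈ K, inner ℝ (y - v) (w - v) ≤ 0 := by
    intro y
    obtain ⟨v, hv, h⟩ := exists_norm_eq_iInf_of_complete_convex hne hcl.isComplete hcv y
    exact ⟨v, hv, (norm_eq_iInf_iff_real_inner_le_zero hcv hv).mp h⟩
  choose g hg1 hg2 using hex
  refine ⟨g, hg1, ?_, ?_⟩
  · intro y hy
    have h := hg2 y y hy
    rw [real_inner_self_nonpos] at h
    exact (sub_eq_zero.mp h).symm
  · intro a b
    have h1 := hg2 a (g b) (hg1 b)
    have h2 := hg2 b (g a) (hg1 a)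
    have h3 : ‖g a - g b‖ ^ 2 ≤ inner ℝ (a - b) (g a - g b) := by
      rw [← real_inner_self_eq_norm_sq]
      have e1 : inner ℝ (a - g a) (g b - g a) = - inner ℝ (a - g a) (g a - g b) := by
        rw [← inner_neg_right, neg_sub]
      have e2 : inner ℝ (a - b) (g a - g b) = inner ℝ (a - g a) (g a - g b) +
          inner ℝ (g a - g b) (g a - g b) - inner ℝ (b - g b) (g a - g b) := by
        rw [← inner_add_left, ← inner_sub_left]
        congr 1
        abel
      rw [e1] at h1
      linarith
    have h4 : inner ℝ (a - b) (g a - g b) ≤ ‖a - b‖ * ‖g a - g b‖ := real_inner_le_norm _ _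
    rw [dist_eq_norm, dist_eq_norm]
    rcases eq_or_lt_of_le (norm_nonneg (g a - g b)) with h0 | h0
    · rw [← h0]; exact norm_nonneg _
    · have h5 : ‖g a - g b‖ * ‖g a - g b‖ ≤ ‖a - b‖ * ‖g a - g b‖ := by
        rw [← sq]; linarith
      exact le_of_mul_le_mul_right h5 h0

theorem lv_map (g : E d → E d) (t : BT (Fin n) (E d)) : (t.map g).lv = t.lv := by
  induction t with
  | leaf i => rfl
  | node z l r hl hr => simp only [BT.map, BT.lv, hl, hr]

theorem ok_map (g : E d → E d) (t : BT (Fin n) (E d)) (h : t.ok) : (t.map g).ok := by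
  induction t with
  | leaf i => trivial
  | node z l r hl hr =>
    obtain ⟨h1, h2, h3⟩ := h
    refine ⟨hl h1, hr h2, ?_⟩
    rw [lv_map, lv_map]; exact h3

theorem pos_map (g : E d → E d) (p : Fin n → E d) (hp : ∀ i, g (p i) = p i)
    (t : BT (Fin n) (E d)) : (t.map g).pos p = g (t.pos p) := by
  cases t with
  | leaf i => exact (hp i).symm
  | node z l r => rfl

theorem nodes_map (g : E d → E d) (t : BT (Fin n) (E d)) :
    (t.map g).nodes = t.nodes.map g := by
  induction t with
  | leaf i => rfl
  | node z l r hl hr => simp only [BT.map, BT.nodes, hl, hr, List.map_cons, List.map_append]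

theorem esum_map (g : E d → E d) (p : Fin n → E d) (hp : ∀ i, g (p i) = p i)
    (hg : ∀ a b, dist (g a) (g b) ≤ dist a b) (t : BT (Fin n) (E d)) :
    (t.map g).esum p dist ≤ t.esum p dist := by
  induction t with
  | leaf i => exact le_rfl
  | node z l r hl hr =>
    simp only [BT.map, BT.esum]
    rw [pos_map g p hp l, pos_map g p hp r]
    have h1 := hg z (l.pos p)
    have h2 := hg z (r.pos p)
    linarith

end PRJaux

open PRJaux in
theorem prj : LX_PRJ := by
  intro d n p i0 t ht
  have hmem : ∀ i, p i ∈ Hu p := fun i => subset_convexHull ℝ _ (mem_range_self i)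
  obtain ⟨g, hg1, hg2, hg3⟩ := exists_proj (K := Hu p) ⟨p i0, hmem i0⟩
    (Set.Finite.isClosed_convexHull ℝ (Set.finite_range p)) (convex_convexHull ℝ _)
  have hp : ∀ i, g (p i) = p i := fun i => hg2 _ (hmem i)
  refine ⟨t.map g, ⟨ok_map g t ht.1, (lv_map g t).trans ht.2⟩, ?_, ?_⟩
  · intro z hz
    rw [nodes_map, List.mem_map] at hz
    obtain ⟨y, -, rfl⟩ := hz
    exact hg1 y
  · unfold tot
    rw [pos_map g p hp t]
    have h1 := hg3 (p i0) (t.pos p)
    rw [hp i0] at h1
    have h2 := esum_map g p hp hg3 t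
    linarith

end LX
end H11ST
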